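import Pool.Agent.MWL.Stmts

/-!
# Row TA1 of block MWL: the absorption table, vectors with a heavy block
-/

namespace Pool.Agent.MWL.H75

open Pool.Agent.MVO Pool.Agent.MWL

/-- transport of absorption along a push, an addition and a correction of heavy entries -/
theorem tr (hT : TrnStmt) (hA : AbsStmt) {n : ℕ} {R : FC} (hR : LR n R) {k k' : ℕ} {a b f : ℕ → ℕ}
    {i : ℕ} (hi : i ≤ k) (hf : BMap k k' f) (h : Ab n R k a i)
    (hb : ∀ j ≤ k', psh k f a j ≤ b j ∨ (Hv (psh k f a) j ∧ Hv b j)) : Ab n R k' b (f i) := by
  have h1 : Ab n R k' (psh k f a) (f i) := (hT n R k a i).2.2.2 k' f hf hi h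
  generalize psh k f a = c at h1 hb
  have h2 : Ab n R k' (fun j => c j + (if c j ≤ b j then b j - c j else (n - 1) * c j + b j))
      (f i) :=
    (hT n R k' c (f i)).2.1 (fun j => if c j ≤ b j then b j - c j else (n - 1) * c j + b j) h1
  have h3 : Nq n k' (fun j => c j + (if c j ≤ b j then b j - c j else (n - 1) * c j + b j)) b := by
    intro j hj
    by_cases h4 : c j ≤ b j
    · left
      show c j + (if c j ≤ b j then b j - c j else (n - 1) * c j + b j) = b j
      rw [if_pos h4]
      omega
    · right
      rcases hb j hj with h5 | ⟨⟨h5, p, hp, h6⟩, h7⟩
      · exact absurd h5 h4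
      · refine ⟨⟨?_, p, hp, ?_⟩, h7, ?_⟩
        · show c j + (if c j ≤ b j then b j - c j else (n - 1) * c j + b j) ≠ 0
          exact fun h => h5 (Nat.eq_zero_of_add_eq_zero_right h)
        · show 2 ≤ c p + (if c p ≤ b p then b p - c p else (n - 1) * c p + b p)
          exact le_trans h6 (Nat.le_add_right _ _)
        · show c j + (if c j ≤ b j then b j - c j else (n - 1) * c j + b j) ≡ b j [MOD n]
          rw [if_neg h4]
          have h8 : c j + ((n - 1) * c j + b j) = b j + n * c j := by
            obtain ⟨m, rfl⟩ : ∃ m, n = m + 1 := ⟨n - 1, by have := hR.pos; omega⟩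
            simp only [Nat.add_sub_cancel]
            ring
          rw [h8]
          exact Nat.add_mul_mod_self_left _ _ _
  exact ((hT n R k' _ (f i)).1 b ((hA n R hR k' _).2 b h3)).1 h2

/-- one summand of `psh` -/
theorem le_psh {k : ℕ} (f a : ℕ → ℕ) {p j : ℕ} (hp : p ≤ k) (hj : f p = j) :
    a p ≤ psh k f a j := by
  unfold psh
  have h := Finset.single_le_sum (f := fun i => if f i = j then a i else 0)
    (fun i _ => Nat.zero_le _) (Finset.mem_range.2 (Nat.lt_succ_of_le hp))
  simp only [hj, if_true] at h
  exact h

/-- only one summand -/
theorem psh_single {k : ℕ} (f a : ℕ → ℕ) {p j : ℕ} (hp : p ≤ k) (hj : f p = j)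
    (h : ∀ t ≤ k, t ≠ p → f t = j → a t = 0) : psh k f a j = a p := by
  unfold psh
  rw [Finset.sum_eq_single p]
  · rw [if_pos hj]
  · intro t ht htp
    by_cases h1 : f t = j
    · rw [if_pos h1]
      exact h t (Nat.le_of_lt_succ (Finset.mem_range.1 ht)) htp h1
    · rw [if_neg h1]
  · intro h1
    exact absurd (Finset.mem_range.2 (Nat.lt_succ_of_le hp)) h1

/-- no summand -/
theorem psh_none {k : ℕ} (f a : ℕ → ℕ) {j : ℕ} (h : ∀ t ≤ k, f t = j → a t = 0) :
    psh k f a j = 0 := by
  unfold psh
  apply Finset.sum_eq_zero
  intro t ht
  by_cases h1 : f t = j
  · rw [if_pos h1]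
    exact h t (Nat.le_of_lt_succ (Finset.mem_range.1 ht)) h1
  · rw [if_neg h1]

theorem lb_mono (a : ℕ → ℕ) {i j : ℕ} (h : i ≤ j) : lb a i ≤ lb a j := by
  unfold lb
  apply Finset.card_le_card
  intro t ht
  rw [Finset.mem_filter, Finset.mem_range] at ht ⊢
  exact ⟨lt_of_lt_of_le ht.1 h, ht.2⟩

theorem lb_lt (a : ℕ → ℕ) {i j : ℕ} (h : i < j) (hi : a i ≠ 0) : lb a i < lb a j := by
  unfold lb
  apply Finset.card_lt_card
  rw [Finset.ssubset_iff_of_subset]
  · refine ⟨i, ?_, ?_⟩
    · rw [Finset.mem_filter, Finset.mem_range]
      exact ⟨h, hi⟩
    · rw [Finset.mem_filter, Finset.mem_range]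
      exact fun h1 => lt_irrefl _ h1.1
  · intro t ht
    rw [Finset.mem_filter, Finset.mem_range] at ht ⊢
    exact ⟨lt_trans ht.1 h, ht.2⟩

/-- the common part of (3) and (4) -/
theorem mid (hT : TrnStmt) (hA : AbsStmt) {n : ℕ} {R : FC} (hR : LR n R) {k : ℕ} {a : ℕ → ℕ}
    {i : ℕ} (hi : i ≤ k) (hl : ∀ p ≤ i, a p ≤ 1) {q : ℕ} (hq : i < q) (hqk : q ≤ k)
    (haq : 2 ≤ a q) {g : ℕ → ℕ}
    (hg : g = fun j => if j < lb a i then 1 else if j = lb a i then a i else 2) :
    Ab n R k a i ↔ Ab n R (lb a i + 1) g (lb a i) := by
  constructor
  · intro h
    have hf : BMap k (lb a i + 1) (fun j => if j ≤ i then lb a j else lb a i + 1) := by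
      constructor
      · intro s t hst _
        show (if s ≤ i then lb a s else lb a i + 1) ≤ (if t ≤ i then lb a t else lb a i + 1)
        by_cases h1 : t ≤ i
        · rw [if_pos h1, if_pos (le_trans hst h1)]
          exact lb_mono a hst
        · rw [if_neg h1]
          by_cases h2 : s ≤ i
          · rw [if_pos h2]
            exact le_trans (lb_mono a h2) (Nat.le_succ _)
          · rw [if_neg h2]
      · intro s _
        show (if s ≤ i then lb a s else lb a i + 1) ≤ lb a i + 1
        by_cases h2 : s ≤ i
        · rw [if_pos h2]
          exact le_trans (lb_mono a h2) (Nat.le_succ _)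
        · rw [if_neg h2]
    have h1 := tr hT hA hR (b := g) hi hf h ?_
    · have h2 : (if i ≤ i then lb a i else lb a i + 1) = lb a i := if_pos (le_refl i)
      rw [h2] at h1
      exact h1
    · intro j hj
      by_cases h1 : j = lb a i + 1
      · right
        have h2 : 2 ≤ psh k (fun j => if j ≤ i then lb a j else lb a i + 1) a j := by
          refine le_trans haq (le_psh _ a hqk ?_)
          show (if q ≤ i then lb a q else lb a i + 1) = j
          rw [if_neg (by omega), h1]
        refine ⟨⟨by omega, j, le_refl j, h2⟩, ?_⟩
        have h3 : g j = 2 := by
          rw [hg]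
          show (if j < lb a i then 1 else if j = lb a i then a i else 2) = 2
          rw [if_neg (by omega), if_neg (by omega)]
        exact ⟨by omega, j, le_refl j, by omega⟩
      · left
        have hj' : j ≤ lb a i := by omega
        by_cases h2 : ∃ s ≤ i, lb a s = j ∧ a s ≠ 0
        · obtain ⟨s, hs, hsj, has⟩ := h2
          have h3 : psh k (fun j => if j ≤ i then lb a j else lb a i + 1) a j = a s := by
            apply psh_single _ _ (le_trans hs hi)
            · show (if s ≤ i then lb a s else lb a i + 1) = j
              rw [if_pos hs, hsj]
            · intro t _ hts htj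
              have htj' : (if t ≤ i then lb a t else lb a i + 1) = j := htj
              by_cases h4 : t ≤ i
              · rw [if_pos h4] at htj'
                by_contra h5
                rcases Nat.lt_or_gt_of_ne hts with h6 | h6
                · have := lb_lt a h6 h5
                  omega
                · have := lb_lt a h6 has
                  omega
              · rw [if_neg h4] at htj'
                exact absurd htj'.symm h1
          rw [h3, hg]
          show a s ≤ if j < lb a i then 1 else if j = lb a i then a i else 2
          by_cases h4 : j < lb a i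
          · rw [if_pos h4]
            exact hl s hs
          · have h5 : j = lb a i := by omega
            rw [if_neg h4, if_pos h5]
            have h6 : s = i := by
              by_contra h7
              have := lb_lt a (lt_of_le_of_ne hs h7) has
              omega
            rw [h6]
        · have h3 : psh k (fun j => if j ≤ i then lb a j else lb a i + 1) a j = 0 := by
            apply psh_none
            intro t _ htj
            have htj' : (if t ≤ i then lb a t else lb a i + 1) = j := htj
            by_cases h4 : t ≤ i
            · rw [if_pos h4] at htj'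
              by_contra h5
              exact h2 ⟨t, h4, htj', h5⟩
            · rw [if_neg h4] at htj'
              exact absurd htj'.symm h1
          rw [h3]
          exact Nat.zero_le _
  · intro h
    classical
    have hinf : (setOf (fun j => a j ≠ 0 ∨ i ≤ j)).Infinite := by
      apply Set.infinite_of_not_bddAbove
      rintro ⟨M, hM⟩
      have := hM (show (M + i + 1) ∈ setOf (fun j => a j ≠ 0 ∨ i ≤ j) from Or.inr (by omega))
      omega
    have hcnt : Nat.count (fun j => a j ≠ 0 ∨ i ≤ j) i = lb a i := by
      rw [Nat.count_eq_card_filter_range]
      unfold lb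
      congr 1
      apply Finset.filter_congr
      intro t ht
      rw [Finset.mem_range] at ht
      constructor
      · rintro (h1 | h1)
        · exact h1
        · omega
      · exact fun h1 => Or.inl h1
    have hnl : Nat.nth (fun j => a j ≠ 0 ∨ i ≤ j) (lb a i) = i := by
      rw [← hcnt]
      exact Nat.nth_count (Or.inr (le_refl i))
    have hsm : StrictMono (Nat.nth (fun j => a j ≠ 0 ∨ i ≤ j)) := Nat.nth_strictMono hinf
    have hmem : ∀ t, t < lb a i → a (Nat.nth (fun j => a j ≠ 0 ∨ i ≤ j) t) ≠ 0 := by
      intro t ht
      have h1 := hsm ht
      rw [hnl] at h1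
      rcases Nat.nth_mem_of_infinite hinf t with h2 | h2
      · exact h2
      · omega
    generalize Nat.nth (fun j => a j ≠ 0 ∨ i ≤ j) = N at hnl hsm hmem
    have hN : ∀ t, t ≤ lb a i → N t ≤ i := by
      intro t ht
      have := hsm.monotone ht
      rw [hnl] at this
      exact this
    have hf : BMap (lb a i + 1) k (fun t => if t ≤ lb a i then N t else q) := by
      constructor
      · intro s t hst _
        show (if s ≤ lb a i then N s else q) ≤ (if t ≤ lb a i then N t else q)
        by_cases h1 : t ≤ lb a i
        · rw [if_pos h1, if_pos (le_trans hst h1)]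
          exact hsm.monotone hst
        · rw [if_neg h1]
          by_cases h2 : s ≤ lb a i
          · rw [if_pos h2]
            have := hN s h2
            omega
          · rw [if_neg h2]
      · intro s _
        show (if s ≤ lb a i then N s else q) ≤ k
        by_cases h2 : s ≤ lb a i
        · rw [if_pos h2]
          have := hN s h2
          omega
        · rw [if_neg h2]
          exact hqk
    have h1 := tr hT hA hR (b := a) (Nat.le_succ (lb a i)) hf h ?_
    · have h2 : (if lb a i ≤ lb a i then N (lb a i) else q) = i := by
        rw [if_pos (le_refl _), hnl]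
      rw [h2] at h1
      exact h1
    · intro j hj
      left
      by_cases h1 : ∃ s ≤ lb a i + 1, (if s ≤ lb a i then N s else q) = j
      · obtain ⟨s, hs, hsj⟩ := h1
        have h2 : psh (lb a i + 1) (fun t => if t ≤ lb a i then N t else q) g j = g s := by
          apply psh_single _ _ hs hsj
          intro t ht hts htj
          exfalso
          have htj' : (if t ≤ lb a i then N t else q) = j := htj
          by_cases h3 : t ≤ lb a i
          · rw [if_pos h3] at htj'
            by_cases h4 : s ≤ lb a i
            · rw [if_pos h4] at hsj
              exact hts (hsm.injective (htj'.trans hsj.symm))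
            · rw [if_neg h4] at hsj
              have := hN t h3
              omega
          · rw [if_neg h3] at htj'
            by_cases h4 : s ≤ lb a i
            · rw [if_pos h4] at hsj
              have := hN s h4
              omega
            · omega
        rw [h2, hg]
        show (if s < lb a i then 1 else if s = lb a i then a i else 2) ≤ a j
        by_cases h3 : s < lb a i
        · rw [if_pos h3]
          rw [if_pos (le_of_lt h3)] at hsj
          rw [← hsj]
          exact Nat.one_le_iff_ne_zero.2 (hmem s h3)
        · rw [if_neg h3]
          by_cases h4 : s = lb a i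
          · rw [if_pos h4]
            rw [if_pos (le_of_eq h4), h4, hnl] at hsj
            rw [hsj]
          · rw [if_neg h4]
            rw [if_neg (by omega)] at hsj
            rw [← hsj]
            exact haq
      · rw [psh_none]
        · exact Nat.zero_le _
        · intro t ht htj
          exact absurd ⟨t, ht, htj⟩ h1

/-- **TA1** -/
theorem ta1 (hT : TrnStmt) (_hH : HvpStmt) (hA : AbsStmt) (hR4 : ArrStmt) : Ta1Stmt := by
  intro n R hR k a i hi
  refine ⟨?_, ?_, ?_, ?_⟩
  · rintro hai ⟨p, hp, hap⟩ ⟨q, hq, hqk, haq⟩
    constructor
    · intro h
      have hf : BMap k 2 (fun j => if j < i then 0 else if j = i then 1 else 2) := by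
        constructor
        · intro s t hst _
          show (if s < i then 0 else if s = i then 1 else 2) ≤
            (if t < i then 0 else if t = i then 1 else 2)
          split_ifs <;> omega
        · intro s _
          show (if s < i then 0 else if s = i then 1 else 2) ≤ 2
          split_ifs <;> omega
      have h1 := tr hT hA hR (b := v3 2 0 2) hi hf h ?_
      · have h2 : (if i < i then 0 else if i = i then 1 else 2 : ℕ) = 1 := by
          rw [if_neg (lt_irrefl i), if_pos rfl]
        rw [h2] at h1
        exact h1
      · intro j hj
        have h0 : 2 ≤ psh k (fun j => if j < i then 0 else if j = i then 1 else 2) a 0 := by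
          refine le_trans hap (le_psh _ a (by omega) ?_)
          show (if p < i then 0 else if p = i then 1 else 2) = 0
          rw [if_pos hp]
        have hj3 : j = 0 ∨ j = 1 ∨ j = 2 := by omega
        rcases hj3 with rfl | rfl | rfl
        · right
          exact ⟨⟨by omega, 0, le_refl _, h0⟩, ⟨by simp [v3], 0, le_refl _, by simp [v3]⟩⟩
        · left
          rw [psh_none]
          · exact Nat.zero_le _
          · intro t _ htj
            have htj' : (if t < i then 0 else if t = i then 1 else 2) = 1 := htj
            have : t = i := by
              split_ifs at htj' <;> omega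
            rw [this, hai]
        · right
          have h2 : a q ≤ psh k (fun j => if j < i then 0 else if j = i then 1 else 2) a 2 := by
            apply le_psh _ a hqk
            show (if q < i then 0 else if q = i then 1 else 2) = 2
            rw [if_neg (by omega), if_neg (by omega)]
          exact ⟨⟨by omega, 0, Nat.zero_le _, h0⟩, ⟨by simp [v3], 0, Nat.zero_le _, by simp [v3]⟩⟩
    · intro h
      have hf : BMap 2 k (fun j => if j = 0 then p else if j = 1 then i else q) := by
        constructor
        · intro s t hst _
          show (if s = 0 then p else if s = 1 then i else q) ≤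
            (if t = 0 then p else if t = 1 then i else q)
          split_ifs <;> omega
        · intro s _
          show (if s = 0 then p else if s = 1 then i else q) ≤ k
          split_ifs <;> omega
      have h' : Ab n R 2 (v3 2 0 2) 1 := h
      have h1 := tr hT hA hR (b := a) (by omega : 1 ≤ 2) hf h' ?_
      · exact h1
      · intro j hj
        have hp2 : psh 2 (fun j => if j = 0 then p else if j = 1 then i else q) (v3 2 0 2) j =
            (if p = j then 2 else 0) + (if q = j then 2 else 0) := by
          unfold psh
          rw [Finset.sum_range_succ, Finset.sum_range_succ, Finset.sum_range_succ,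
            Finset.sum_range_zero]
          simp [v3]
        by_cases h2 : j = q
        · right
          have h3 : psh 2 (fun j => if j = 0 then p else if j = 1 then i else q) (v3 2 0 2) p =
            2 := by
            apply psh_single _ _ (Nat.zero_le 2) rfl
            intro t ht ht0 htp
            have htp' : (if t = 0 then p else if t = 1 then i else q) = p := htp
            exfalso
            split_ifs at htp' <;> omega
          refine ⟨⟨?_, p, by omega, by omega⟩, ⟨by rw [h2]; exact haq, p, by omega, hap⟩⟩
          rw [hp2, h2, if_pos rfl]
          omega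
        · left
          rw [hp2]
          by_cases h3 : p = j
          · rw [if_pos h3, ← h3, if_neg (by omega)]
            omega
          · rw [if_neg h3, if_neg (by omega)]
            omega
  · rintro hai ⟨p, hp, hap⟩ hno
    constructor
    · intro h
      have hf : BMap k 1 (fun j => if j < i then 0 else 1) := by
        constructor
        · intro s t hst _
          show (if s < i then 0 else 1) ≤ (if t < i then 0 else 1)
          split_ifs <;> omega
        · intro s _
          show (if s < i then 0 else 1) ≤ 1
          split_ifs <;> omega
      have h1 := tr hT hA hR (b := v2 2 0) hi hf h ?_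
      · have h2 : (if i < i then 0 else 1 : ℕ) = 1 := by
          rw [if_neg (lt_irrefl i)]
        rw [h2] at h1
        exact h1
      · intro j hj
        have h0 : 2 ≤ psh k (fun j => if j < i then 0 else 1) a 0 := by
          refine le_trans hap (le_psh _ a (by omega) ?_)
          show (if p < i then 0 else 1) = 0
          rw [if_pos hp]
        have hj3 : j = 0 ∨ j = 1 := by omega
        rcases hj3 with rfl | rfl
        · right
          exact ⟨⟨by omega, 0, le_refl _, h0⟩, ⟨by simp [v2], 0, le_refl _, by simp [v2]⟩⟩
        · left
          rw [psh_none]
          · exact Nat.zero_le _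
          · intro t htk htj
            have htj' : (if t < i then 0 else 1) = 1 := htj
            have h3 : i ≤ t := by
              split_ifs at htj'
              omega
            rcases Nat.eq_or_lt_of_le h3 with h4 | h4
            · rw [← h4, hai]
            · exact hno t h4 htk
    · intro h
      have hf : BMap 1 k (fun j => if j = 0 then p else i) := by
        constructor
        · intro s t hst _
          show (if s = 0 then p else i) ≤ (if t = 0 then p else i)
          split_ifs <;> omega
        · intro s _
          show (if s = 0 then p else i) ≤ k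
          split_ifs <;> omega
      have h' : Ab n R 1 (v2 2 0) 1 := h
      have h1 := tr hT hA hR (b := a) (le_refl 1) hf h' ?_
      · exact h1
      · intro j hj
        left
        have hp2 : psh 1 (fun j => if j = 0 then p else i) (v2 2 0) j =
            (if p = j then 2 else 0) := by
          unfold psh
          rw [Finset.sum_range_succ, Finset.sum_range_succ, Finset.sum_range_zero]
          simp [v2]
        rw [hp2]
        by_cases h3 : p = j
        · rw [if_pos h3, ← h3]
          exact hap
        · rw [if_neg h3]
          exact Nat.zero_le _
  · rintro hai hl ⟨q, hq, hqk, haq⟩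
    rw [← (hR4 n R hR).2.2.2.2.2 (lb a i)]
    apply mid hT hA hR hi hl hq hqk haq
    rw [hai]
  · rintro hai hl ⟨q, hq, hqk, haq⟩
    have h1 := mid hT hA hR hi hl hq hqk haq (g := (Bit.D (lb a i)).a) ?_
    · exact h1
    · funext j
      show (if j ≤ lb a i then 1 else 2) = if j < lb a i then 1 else if j = lb a i then a i else 2
      rw [hai]
      split_ifs <;> omega

end Pool.Agent.MWL.H75
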